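import Mathlib
import Pool.Agent.Work.MP_9d0e17_ap.Interface

set_option autoImplicit false

namespace Pool.Agent.Work.AP90.helper90

open Finset Pool.Agent.Paley67 Pool.Agent.Work.LV Pool.Agent.Work.AP90

theorem norm_chi_unit {p : ℕ} [Fact p.Prime] {d : ZMod p} (hd : d ≠ 0) :
    ‖((chi p d : ℤ) : ℂ)‖ = 1 := by
  have : chi p d = 1 ∨ chi p d = -1 := quadraticChar_dichotomy hd
  rcases this with h | h <;> rw [h] <;> simp

theorem chi_mul' {p : ℕ} [Fact p.Prime] (a b : ZMod p) : chi p (a * b) = chi p a * chi p b :=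
  map_mul (quadraticChar (ZMod p)) a b

theorem stmt_CLUS : Stmt_CLUS := by
  classical
  intro p _ hp4 K L S W d hK hd hcov hkey x
  have hp0 : 0 < p := (Fact.out : p.Prime).pos
  have hp2 : p ≠ 2 := by omega
  have hdi : d⁻¹ ≠ 0 := inv_ne_zero hd
  have hinj : Function.Injective (fun a : ZMod p => d⁻¹ * a) := mul_right_injective₀ hdi
  set S' : Finset (ZMod p) := S.image (fun a => d⁻¹ * a) with hS'
  set W' : Finset (ZMod p) := W.image (fun a => d⁻¹ * a) with hW'
  set x' : ZMod p → ℂ := fun a => x (d * a) with hx'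
  have hx'1 : ∀ a, x' (d⁻¹ * a) = x a := by
    intro a
    show x (d * (d⁻¹ * a)) = x a
    rw [mul_inv_cancel_left₀ hd]
  have hcardS : S'.card = S.card := Finset.card_image_of_injective _ hinj
  have hcardW : W'.card ≤ W.card := Finset.card_image_le
  have hnn : nn S' x' = nn S x := by
    unfold nn
    rw [hS', Finset.sum_image (fun a _ b _ h => hinj h)]
    exact Finset.sum_congr rfl fun a _ => by rw [hx'1]
  have hq : ‖qC S' x'‖ = ‖qC S x‖ := by
    have h1 : qC S' x' = ((chi p d⁻¹ : ℤ) : ℂ) * qC S x := by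
      unfold qC
      rw [hS', Finset.sum_image (fun a _ b _ h => hinj h), Finset.mul_sum]
      refine Finset.sum_congr rfl fun a _ => ?_
      rw [Finset.sum_image (fun a _ b _ h => hinj h), Finset.mul_sum]
      refine Finset.sum_congr rfl fun b _ => ?_
      rw [hx'1, hx'1, ← mul_sub, chi_mul']
      push_cast
      ring
    rw [h1, norm_mul, norm_chi_unit hdi, one_mul]
  rw [← hq, ← hnn]
  -- clusters
  have hcov' : ∀ a ∈ S', ∃ w ∈ W', ∃ i : ℕ, i < L ∧ a = w + (i : ZMod p) := by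
    intro a ha
    obtain ⟨b, hb, rfl⟩ := Finset.mem_image.1 ha
    obtain ⟨w, hw, i, hi, h⟩ := hcov b hb
    refine ⟨d⁻¹ * w, Finset.mem_image_of_mem _ hw, i, hi, ?_⟩
    show d⁻¹ * b = _
    rw [h, mul_add, inv_mul_cancel_left₀ hd]
  have hch : ∀ a : ZMod p, ∃ w : ZMod p, a ∈ S' → w ∈ W' ∧ ∃ i : ℕ, i < L ∧ a = w + (i : ZMod p) := by
    intro a
    by_cases ha : a ∈ S'
    · obtain ⟨w, hw, h⟩ := hcov' a ha
      exact ⟨w, fun _ => ⟨hw, h⟩⟩
    · exact ⟨0, fun h => absurd h ha⟩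
  choose wf hwf using hch
  set T : ZMod p → Finset (ZMod p) := fun w => S'.filter (fun a => wf a = w) with hT
  have hmaps : ∀ a ∈ S', wf a ∈ W' := fun a ha => (hwf a ha).1
  have hTcard : ∀ w, (T w).card ≤ S.card := fun w => by
    rw [← hcardS]; exact Finset.card_filter_le _ _
  have hTcl : ∀ w, ∀ a ∈ T w, ∃ i : ℕ, i < L ∧ a = w + (i : ZMod p) := by
    intro w a ha
    obtain ⟨ha1, ha2⟩ := Finset.mem_filter.1 ha
    have := (hwf a ha1).2
    rwa [ha2] at this
  have hhat : ∀ r, hat S' x' r = ∑ w ∈ W', hat (T w) x' r := by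
    intro r
    unfold hat
    exact (Finset.sum_fiberwise_of_maps_to hmaps _).symm
  have hnnsum : nn S' x' = ∑ w ∈ W', nn (T w) x' := by
    unfold nn
    exact (Finset.sum_fiberwise_of_maps_to hmaps _).symm
  have hmain : Gs p * qC S' x' = ∑ w ∈ W', ∑ w' ∈ W', cross (T w) (T w') x' := by
    rw [← chi_hat hp2]
    have h1 : ∀ r : ZMod p, ((chi p r : ℤ) : ℂ) * ((‖hat S' x' r‖ : ℝ) : ℂ) ^ 2 =
        ∑ w ∈ W', ∑ w' ∈ W', ((chi p r : ℤ) : ℂ) *
          (hat (T w) x' r * (starRingEnd ℂ) (hat (T w') x' r)) := by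
      intro r
      rw [← Complex.mul_conj', hhat r, map_sum, Finset.sum_mul_sum, Finset.mul_sum]
      exact Finset.sum_congr rfl fun w _ => Finset.mul_sum _ _ _
    rw [Finset.sum_congr rfl fun r _ => h1 r, Finset.sum_comm]
    refine Finset.sum_congr rfl fun w _ => ?_
    rw [Finset.sum_comm]
    rfl
  have h2 : Real.sqrt p * ‖qC S' x'‖ = ‖∑ w ∈ W', ∑ w' ∈ W', cross (T w) (T w') x'‖ := by
    rw [← hmain, norm_mul, Gs_norm hp4]
  rw [h2]
  have h3 : ‖∑ w ∈ W', ∑ w' ∈ W', cross (T w) (T w') x'‖ ≤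
      K * (∑ w ∈ W', Real.sqrt (nn (T w) x')) ^ 2 := by
    rw [sq, Finset.sum_mul_sum, Finset.mul_sum]
    refine (norm_sum_le _ _).trans (Finset.sum_le_sum fun w _ => ?_)
    rw [Finset.mul_sum]
    refine (norm_sum_le _ _).trans (Finset.sum_le_sum fun w' _ => ?_)
    exact hkey w w' (T w) (T w') x' (hTcard w) (hTcard w') (hTcl w) (hTcl w')
  refine h3.trans ?_
  have h4 : (∑ w ∈ W', Real.sqrt (nn (T w) x')) ^ 2 ≤ W'.card * nn S' x' := by
    rw [hnnsum]
    refine sq_sum_le_card_mul_sum_sq.trans (le_of_eq ?_)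
    congr 1
    refine Finset.sum_congr rfl fun w _ => ?_
    rw [Real.sq_sqrt]
    unfold nn
    positivity
  have h5 : 0 ≤ nn S' x' := by unfold nn; positivity
  have h6 : (W'.card : ℝ) ≤ W.card := by exact_mod_cast hcardW
  calc K * (∑ w ∈ W', Real.sqrt (nn (T w) x')) ^ 2 ≤ K * (W'.card * nn S' x') := by gcongr
    _ ≤ K * (W.card * nn S' x') := by gcongr
    _ = W.card * K * nn S' x' := by ring

end Pool.Agent.Work.AP90.helper90
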