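import Mathlib
import Pool.Agent.Work.MP_9d0e17_ap.Interface

set_option autoImplicit false

namespace Pool.Agent.Work.AP90.helper90

open Finset Pool.Agent.Paley67 Pool.Agent.Work.LV Pool.Agent.Work.AP90

theorem nn_nonneg {p : ℕ} (S : Finset (ZMod p)) (x : ZMod p → ℂ) : 0 ≤ nn S x := by
  unfold nn; positivity

theorem exists_large (C a : ℝ) (ha : 0 < a) : ∃ P : ℕ, ∀ p : ℕ, P ≤ p → C ≤ (p : ℝ) ^ a := by
  have h := (tendsto_rpow_atTop ha).comp tendsto_natCast_atTop_atTop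
  obtain ⟨P, hP⟩ := (h.eventually_ge_atTop C).exists_forall_of_atTop
  exact ⟨P, hP⟩

theorem qC_trivial {p : ℕ} [Fact p.Prime] (S : Finset (ZMod p)) (x : ZMod p → ℂ) :
    ‖qC S x‖ ≤ S.card * nn S x := by
  have h1 : ‖qC S x‖ ≤ (∑ a ∈ S, ‖x a‖) ^ 2 := by
    unfold qC
    rw [sq, Finset.sum_mul_sum]
    refine (norm_sum_le _ _).trans (Finset.sum_le_sum fun a _ => ?_)
    refine (norm_sum_le _ _).trans (Finset.sum_le_sum fun b _ => ?_)
    rw [norm_mul, norm_mul, RCLike.norm_conj]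
    have hc : ‖((chi p (a - b) : ℤ) : ℂ)‖ ≤ 1 := by
      rcases eq_or_ne (a - b) 0 with h | h
      · rw [h]
        have : chi p 0 = 0 := quadraticChar_zero
        rw [this]; simp
      · have : chi p (a - b) = 1 ∨ chi p (a - b) = -1 := quadraticChar_dichotomy h
        rcases this with h | h <;> rw [h] <;> simp
    calc ‖((chi p (a - b) : ℤ) : ℂ)‖ * (‖x a‖ * ‖x b‖) ≤ 1 * (‖x a‖ * ‖x b‖) := by
          apply mul_le_mul_of_nonneg_right hc (by positivity)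
      _ = ‖x a‖ * ‖x b‖ := one_mul _
  exact h1.trans sq_sum_le_card_mul_sum_sq

theorem stmt_QF (hLV : Stmt_LV) (hSEP : Stmt_SEP) (hP : Stmt_PAIR) (hC : Stmt_CLUS) :
    Stmt_QF := by
  intro ε hε
  set e : ℝ := min ε (1 / 4) with he
  have he0 : 0 < e := lt_min hε (by norm_num)
  have heε : e ≤ ε := min_le_left _ _
  have he4 : e ≤ 1 / 4 := min_le_right _ _
  obtain ⟨δ₁, hδ₁, P1, hLV⟩ := hLV (e / 8) (by positivity)
  set δ₂ : ℝ := min δ₁ (e / 32) with hδ₂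
  have hδ₂0 : 0 < δ₂ := lt_min hδ₁ (by positivity)
  have hδ₂1 : δ₂ ≤ δ₁ := min_le_left _ _
  have hδ₂e : δ₂ ≤ e / 32 := min_le_right _ _
  set δ : ℝ := δ₂ / 4 with hδ
  have hδ0 : 0 < δ := by positivity
  obtain ⟨P2, hP2⟩ := exists_large 64 δ hδ0
  refine ⟨δ, hδ0, max (max P1 P2) 2, ?_⟩
  intro p _ hp4 hPp L S W d hL hd hW hcov hSL x
  have hp1 : P1 ≤ p := ((le_max_left _ _).trans (le_max_left _ _)).trans hPp
  have hp2 : P2 ≤ p := ((le_max_right _ _).trans (le_max_left _ _)).trans hPp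
  have hpp : 2 ≤ p := (le_max_right _ _).trans hPp
  have hpr : (1 : ℝ) ≤ p := by exact_mod_cast (by omega : 1 ≤ p)
  have hp0 : (0 : ℝ) < p := by linarith
  have h64 : 64 ≤ (p : ℝ) ^ δ := hP2 p hp2
  have hmono : ∀ a b : ℝ, a ≤ b → (p : ℝ) ^ a ≤ (p : ℝ) ^ b := fun a b h =>
    Real.rpow_le_rpow_of_exponent_le hpr h
  have h64' : ∀ a : ℝ, δ ≤ a → 64 ≤ (p : ℝ) ^ a := fun a h => h64.trans (hmono _ _ h)
  have hSL' : (S.card : ℝ) * L ≤ (p : ℝ) ^ (3 / 2 - e) := hSL.trans (hmono _ _ (by linarith))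
  have hL0 : (0 : ℝ) < L := by exact_mod_cast hL
  have hnn := nn_nonneg S x
  have hsq : Real.sqrt p = (p : ℝ) ^ (1 / 2 : ℝ) := Real.sqrt_eq_rpow _
  by_cases hcase : (L : ℝ) ≤ (p : ℝ) ^ (1 - e / 4)
  · -- case A
    set N : ℕ := ⌊(p : ℝ) ^ (1 - e / 16) / L⌋₊ with hN
    have hq0 : 0 ≤ (p : ℝ) ^ (1 - e / 16) / L := by positivity
    have hNle : (N : ℝ) ≤ (p : ℝ) ^ (1 - e / 16) / L := Nat.floor_le hq0
    have hq1 : (p : ℝ) ^ (3 * e / 16) ≤ (p : ℝ) ^ (1 - e / 16) / L := by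
      rw [le_div_iff₀ hL0]
      calc (p : ℝ) ^ (3 * e / 16) * L ≤ (p : ℝ) ^ (3 * e / 16) * (p : ℝ) ^ (1 - e / 4) := by gcongr
        _ = (p : ℝ) ^ (1 - e / 16) := by rw [← Real.rpow_add hp0]; congr 1; ring
    have hq2 : 2 ≤ (p : ℝ) ^ (1 - e / 16) / L := by
      have := h64' (3 * e / 16) (by linarith)
      linarith
    have hNge : (p : ℝ) ^ (1 - e / 16) / L / 2 ≤ N := by
      have := Nat.lt_floor_add_one ((p : ℝ) ^ (1 - e / 16) / L)
      rw [← hN] at this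
      linarith
    have hN1 : (p : ℝ) ^ (e / 8) ≤ N := by
      have h1 : 2 * (p : ℝ) ^ (e / 8) ≤ (p : ℝ) ^ (3 * e / 16) := by
        have h2 : (p : ℝ) ^ (3 * e / 16) = (p : ℝ) ^ (e / 16) * (p : ℝ) ^ (e / 8) := by
          rw [← Real.rpow_add hp0]; congr 1; ring
        rw [h2]
        have h3 := h64' (e / 16) (by linarith)
        apply mul_le_mul_of_nonneg_right (by linarith) (by positivity)
      linarith
    have hN1' : 1 ≤ N := by
      have h1 : (1 : ℝ) ≤ N := (Real.one_le_rpow hpr (by positivity)).trans hN1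
      exact_mod_cast h1
    have hNr : (0 : ℝ) < N := by exact_mod_cast hN1'
    have hN8 : 8 * N ≤ p := by
      have h1 : (8 : ℝ) * N ≤ p := by
        have h2 : (N : ℝ) ≤ (p : ℝ) ^ (1 - e / 16) := by
          refine hNle.trans (div_le_self (by positivity) (by exact_mod_cast hL))
        have h3 : (p : ℝ) = (p : ℝ) ^ (e / 16) * (p : ℝ) ^ (1 - e / 16) := by
          rw [← Real.rpow_add hp0]
          rw [show e / 16 + (1 - e / 16) = 1 by ring, Real.rpow_one]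
        have h4 := h64' (e / 16) (by linarith)
        have h5 : 0 ≤ (p : ℝ) ^ (1 - e / 16) := by positivity
        calc (8 : ℝ) * N ≤ 64 * (p : ℝ) ^ (1 - e / 16) := by linarith
          _ ≤ (p : ℝ) ^ (e / 16) * (p : ℝ) ^ (1 - e / 16) := by gcongr
          _ = p := h3.symm
      exact_mod_cast h1
    have hNL : (N : ℝ) * L ≤ (p : ℝ) ^ (1 - e / 16) := by
      rwa [le_div_iff₀ hL0] at hNle
    set K : ℝ := 18 * (p : ℝ) ^ (1 - δ₂) with hK
    have hK0 : 0 ≤ K := by positivity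
    have key : ∀ (c₁ c₂ : ZMod p) (S₁ S₂ : Finset (ZMod p)) (x : ZMod p → ℂ),
        S₁.card ≤ S.card → S₂.card ≤ S.card →
        (∀ a ∈ S₁, ∃ i : ℕ, i < L ∧ a = c₁ + (i : ZMod p)) →
        (∀ a ∈ S₂, ∃ i : ℕ, i < L ∧ a = c₂ + (i : ZMod p)) →
          ‖cross S₁ S₂ x‖ ≤ K * (Real.sqrt (nn S₁ x) * Real.sqrt (nn S₂ x)) := by
      intro c₁ c₂ S₁ S₂ x hS₁ hS₂ h₁ h₂
      have hpair := hP p c₁ c₂ L N ((p : ℝ) ^ (-δ₁)) (by positivity) hN1' S₁ S₂ x h₁ h₂
      refine hpair.trans (mul_le_mul_of_nonneg_right ?_ (by positivity))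
      set Ξ := univ.filter fun y : ZMod p => (N : ℝ) * (p : ℝ) ^ (-δ₁) ≤ ‖SS p (c₁ - c₂) y N‖
        with hΞ
      obtain ⟨𝓜, hsep, hmem, hcard⟩ := hSEP p N hN1' Ξ
      have hlv := hLV p hp1 (c₁ - c₂) N hN1 hN8 𝓜 hsep (fun M hM => by
        have := hmem M hM
        rw [hΞ, mem_filter] at this
        exact this.2)
      have hΞN : (Ξ.card : ℝ) * N ≤ 2 * (p : ℝ) ^ (1 / 2 + e / 8) := by
        have h1 : (Ξ.card : ℝ) ≤ 2 * N * 𝓜.card := by exact_mod_cast hcard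
        calc (Ξ.card : ℝ) * N ≤ 2 * N * 𝓜.card * N := by gcongr
          _ = 2 * (𝓜.card * N ^ 2) := by ring
          _ ≤ 2 * (p : ℝ) ^ (1 / 2 + e / 8) := by gcongr
      have hsqr : Real.sqrt (S₁.card * S₂.card) ≤ S.card := by
        rw [Real.sqrt_le_left (by positivity), sq]
        have h1 : (S₁.card : ℝ) ≤ S.card := by exact_mod_cast hS₁
        have h2 : (S₂.card : ℝ) ≤ S.card := by exact_mod_cast hS₂
        gcongr
      have hΞS : (Ξ.card : ℝ) * S.card ≤ 4 * (p : ℝ) ^ (1 - δ₂) := by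
        -- multiply by N
        have h1 : (p : ℝ) ^ (1 - e / 16) / L / 2 * (Ξ.card * S.card) ≤
            2 * (p : ℝ) ^ (1 / 2 + e / 8) * S.card := by
          calc (p : ℝ) ^ (1 - e / 16) / L / 2 * (Ξ.card * S.card) ≤ N * (Ξ.card * S.card) := by
                gcongr
            _ = Ξ.card * N * S.card := by ring
            _ ≤ 2 * (p : ℝ) ^ (1 / 2 + e / 8) * S.card := by gcongr
        have h2 : (p : ℝ) ^ (1 - e / 16) * (Ξ.card * S.card) ≤
            4 * (p : ℝ) ^ (1 / 2 + e / 8) * (p : ℝ) ^ (3 / 2 - e) := by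
          have h3 : (p : ℝ) ^ (1 - e / 16) * (Ξ.card * S.card) =
              2 * L * ((p : ℝ) ^ (1 - e / 16) / L / 2 * (Ξ.card * S.card)) := by
            field_simp
          rw [h3]
          calc 2 * L * ((p : ℝ) ^ (1 - e / 16) / L / 2 * (Ξ.card * S.card)) ≤
                2 * L * (2 * (p : ℝ) ^ (1 / 2 + e / 8) * S.card) := by gcongr
            _ = 4 * (p : ℝ) ^ (1 / 2 + e / 8) * (S.card * L) := by ring
            _ ≤ 4 * (p : ℝ) ^ (1 / 2 + e / 8) * (p : ℝ) ^ (3 / 2 - e) := by gcongr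
        have h4 : 4 * (p : ℝ) ^ (1 / 2 + e / 8) * (p : ℝ) ^ (3 / 2 - e) ≤
            (p : ℝ) ^ (1 - e / 16) * (4 * (p : ℝ) ^ (1 - δ₂)) := by
          have h5 : 4 * (p : ℝ) ^ (1 / 2 + e / 8) * (p : ℝ) ^ (3 / 2 - e) =
              4 * (p : ℝ) ^ (2 - 7 * e / 8) := by
            rw [mul_assoc, ← Real.rpow_add hp0]; congr 2; ring
          have h6 : (p : ℝ) ^ (1 - e / 16) * (4 * (p : ℝ) ^ (1 - δ₂)) =
              4 * (p : ℝ) ^ (2 - e / 16 - δ₂) := by
            rw [mul_left_comm, ← Real.rpow_add hp0]; congr 2; ring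
          rw [h5, h6]
          have := hmono (2 - 7 * e / 8) (2 - e / 16 - δ₂) (by linarith)
          linarith
        exact le_of_mul_le_mul_left (h2.trans h4) (by positivity)
      have t1 : (p : ℝ) ^ (-δ₁) * p ≤ (p : ℝ) ^ (1 - δ₂) := by
        have : (p : ℝ) ^ (-δ₁) * p = (p : ℝ) ^ (1 - δ₁) := by
          nth_rewrite 2 [← Real.rpow_one (p : ℝ)]
          rw [← Real.rpow_add hp0]; congr 1; ring
        rw [this]
        exact hmono _ _ (by linarith)
      have t2 : (Ξ.card : ℝ) * Real.sqrt (S₁.card * S₂.card) ≤ 4 * (p : ℝ) ^ (1 - δ₂) :=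
        (mul_le_mul_of_nonneg_left hsqr (by positivity)).trans hΞS
      have t3 : 4 * Real.pi * N * L ≤ 13 * (p : ℝ) ^ (1 - δ₂) := by
        have h1 : (N : ℝ) * L ≤ (p : ℝ) ^ (1 - δ₂) := hNL.trans (hmono _ _ (by linarith))
        have h2 : Real.pi < 3.15 := Real.pi_lt_d2
        have h3 : 0 ≤ (N : ℝ) * L := by positivity
        nlinarith
      rw [hK]
      linarith
    have hfin := hC p hp4 K L S W d hK0 hd hcov key x
    -- compare
    have h1 : Real.sqrt p * ‖qC S x‖ ≤ Real.sqrt p * ((p : ℝ) ^ (-δ) * Real.sqrt p * nn S x) := by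
      refine hfin.trans ?_
      have h2 : Real.sqrt p * ((p : ℝ) ^ (-δ) * Real.sqrt p * nn S x) =
          (p : ℝ) ^ (1 - δ) * nn S x := by
        have h3 : Real.sqrt p * Real.sqrt p = p := Real.mul_self_sqrt hp0.le
        have h4 : (p : ℝ) ^ (1 - δ) = (p : ℝ) ^ (-δ) * p := by
          nth_rewrite 3 [← Real.rpow_one (p : ℝ)]
          rw [← Real.rpow_add hp0]; congr 1; ring
        rw [h4]
        calc Real.sqrt p * ((p : ℝ) ^ (-δ) * Real.sqrt p * nn S x) =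
            (p : ℝ) ^ (-δ) * (Real.sqrt p * Real.sqrt p) * nn S x := by ring
          _ = (p : ℝ) ^ (-δ) * p * nn S x := by rw [h3]
      rw [h2]
      apply mul_le_mul_of_nonneg_right _ hnn
      calc (W.card : ℝ) * K ≤ (p : ℝ) ^ δ * K := by gcongr
        _ = 18 * (p : ℝ) ^ (1 - 3 * δ) := by
            rw [hK, mul_left_comm, ← Real.rpow_add hp0]; congr 2; rw [hδ]; ring
        _ ≤ (p : ℝ) ^ δ * (p : ℝ) ^ (1 - 3 * δ) := by
            apply mul_le_mul_of_nonneg_right (by linarith) (by positivity)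
        _ = (p : ℝ) ^ (1 - 2 * δ) := by rw [← Real.rpow_add hp0]; congr 1; ring
        _ ≤ (p : ℝ) ^ (1 - δ) := hmono _ _ (by linarith)
    exact le_of_mul_le_mul_left h1 (Real.sqrt_pos.2 hp0)
  · -- case B
    push Not at hcase
    have h1 : (S.card : ℝ) ≤ (p : ℝ) ^ (1 / 2 - 3 * e / 4) := by
      have h2 : (S.card : ℝ) * (p : ℝ) ^ (1 - e / 4) ≤ (p : ℝ) ^ (3 / 2 - e) :=
        (mul_le_mul_of_nonneg_left hcase.le (by positivity)).trans hSL'
      have h3 : (p : ℝ) ^ (3 / 2 - e) = (p : ℝ) ^ (1 / 2 - 3 * e / 4) * (p : ℝ) ^ (1 - e / 4) := by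
        rw [← Real.rpow_add hp0]; congr 1; ring
      rw [h3] at h2
      exact le_of_mul_le_mul_right h2 (by positivity)
    refine (qC_trivial S x).trans (mul_le_mul_of_nonneg_right ?_ hnn)
    rw [hsq, ← Real.rpow_add hp0]
    exact h1.trans (hmono _ _ (by linarith))

end Pool.Agent.Work.AP90.helper90
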