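import Mathlib
import Pool.Agent.Work.MP_9d0e17_ap.Interface
import Pool.Agent.Work.MP_9d0e17_ap_helper90.QF

set_option autoImplicit false

namespace Pool.Agent.Work.AP90.helper90

open Finset Pool.Agent.Paley67 Pool.Agent.Work.LV Pool.Agent.Work.AP90

theorem card_cluster {p : ℕ} [Fact p.Prime] (S W : Finset (ZMod p)) (d : ZMod p) (L : ℕ)
    (h : ∀ a ∈ S, ∃ w ∈ W, ∃ i : ℕ, i < L ∧ a = w + d * (i : ZMod p)) :
    S.card ≤ W.card * L := by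
  classical
  have h1 : S ⊆ (W ×ˢ range L).image (fun t : ZMod p × ℕ => t.1 + d * (t.2 : ZMod p)) := by
    intro a ha
    obtain ⟨w, hw, i, hi, rfl⟩ := h a ha
    exact Finset.mem_image.2 ⟨(w, i), Finset.mem_product.2 ⟨hw, Finset.mem_range.2 hi⟩, rfl⟩
  refine (Finset.card_le_card h1).trans (Finset.card_image_le.trans ?_)
  rw [Finset.card_product, Finset.card_range]

theorem clustered (hQ : Stmt_QF)
    (hF : ∀ (p : ℕ) [Fact p.Prime], p % 4 = 1 → ∀ (S : Finset ℕ) (t : ℝ), 0 ≤ t →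
      S ⊆ range (p + 1) →
      (∀ x : ZMod p → ℂ, ‖qC (resSet p S) x‖ ≤ t * Real.sqrt p * nn (resSet p S) x) →
      ∀ x : ℕ → ℂ,
        |∑ r ∈ (range p).image (fun s => s * s % p), ‖∑ j ∈ S, Ph p r j * x j‖ ^ 2 -
            ∑ j ∈ S, ‖x j‖ ^ 2| ≤
          (t + Real.sqrt ((resSet p S).card / p)) * ∑ j ∈ S, ‖x j‖ ^ 2) :
    ∀ ε : ℝ, 0 < ε → ∃ δ : ℝ, 0 < δ ∧ ∃ P0 : ℕ,
      ∀ p : ℕ, p.Prime → p % 4 = 1 → P0 ≤ p →
      ∀ Φ : ℕ → ℕ → ℂ,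
        (∀ r j : ℕ, Φ r j =
          if j = p then (if r = 0 then (1 : ℂ) else 0)
          else if r = 0 then ((1 / Real.sqrt (p : ℝ) : ℝ) : ℂ)
          else ((Real.sqrt (2 / (p : ℝ)) : ℝ) : ℂ) *
            Complex.exp (2 * (Real.pi : ℂ) * Complex.I * ((r : ℂ) * (j : ℂ)) / (p : ℂ))) →
      ∀ (L d : ℕ) (W S : Finset ℕ), 1 ≤ L → ¬ p ∣ d → (W.card : ℝ) ≤ (p : ℝ) ^ δ →
        S ⊆ Finset.range (p + 1) →
        (∀ j ∈ S, j ≠ p → ∃ w ∈ W, ∃ i < L, j ≡ w + d * i [MOD p]) →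
        (S.card : ℝ) * L ≤ (p : ℝ) ^ (3 / 2 - ε) →
        ∀ x : ℕ → ℂ,
          (1 - (p : ℝ) ^ (-δ)) * ∑ j ∈ S, ‖x j‖ ^ 2 ≤
              ∑ r ∈ (Finset.range p).image (fun s => s * s % p), ‖∑ j ∈ S, Φ r j * x j‖ ^ 2 ∧
            ∑ r ∈ (Finset.range p).image (fun s => s * s % p), ‖∑ j ∈ S, Φ r j * x j‖ ^ 2 ≤
              (1 + (p : ℝ) ^ (-δ)) * ∑ j ∈ S, ‖x j‖ ^ 2 := by
  classical
  intro ε hε
  obtain ⟨δ₁, hδ₁, P1, hQ⟩ := hQ ε hε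
  set δ : ℝ := min δ₁ (1 / 16) / 2 with hδ
  have hδ0 : 0 < δ := by
    have : 0 < min δ₁ (1 / 16) := lt_min hδ₁ (by norm_num)
    positivity
  have hδ1 : 2 * δ ≤ δ₁ := by
    have : min δ₁ (1 / 16) ≤ δ₁ := min_le_left _ _
    rw [hδ]; linarith
  have hδ2 : 2 * δ ≤ 1 / 16 := by
    have : min δ₁ (1 / 16) ≤ 1 / 16 := min_le_right _ _
    rw [hδ]; linarith
  obtain ⟨P2, hP2⟩ := exists_large 2 δ hδ0
  refine ⟨δ, hδ0, max (max P1 P2) 2, ?_⟩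
  intro p hp hp4 hPp Φ hΦ L d W S hL hd hW hS hcov hSL x
  have : Fact p.Prime := ⟨hp⟩
  have hp1 : P1 ≤ p := ((le_max_left _ _).trans (le_max_left _ _)).trans hPp
  have hp2 : P2 ≤ p := ((le_max_right _ _).trans (le_max_left _ _)).trans hPp
  have hpp : 2 ≤ p := (le_max_right _ _).trans hPp
  have hpr : (1 : ℝ) ≤ p := by exact_mod_cast (by omega : 1 ≤ p)
  have hp0 : (0 : ℝ) < p := by linarith
  have h2 : 2 ≤ (p : ℝ) ^ δ := hP2 p hp2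
  have hmono : ∀ a b : ℝ, a ≤ b → (p : ℝ) ^ a ≤ (p : ℝ) ^ b := fun a b h =>
    Real.rpow_le_rpow_of_exponent_le hpr h
  have hΦ' : Φ = Ph p := by
    funext r j
    rw [hΦ]; rfl
  rw [hΦ']
  set R := resSet p S with hR
  set W' : Finset (ZMod p) := W.image (fun n : ℕ => (n : ZMod p)) with hW'
  have hd' : (d : ZMod p) ≠ 0 := by
    rw [Ne, ZMod.natCast_eq_zero_iff]; exact hd
  have hW'c : (W'.card : ℝ) ≤ (p : ℝ) ^ δ := by
    refine le_trans ?_ hW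
    exact_mod_cast Finset.card_image_le
  have hcov' : ∀ a ∈ R, ∃ w ∈ W', ∃ i : ℕ, i < L ∧ a = w + (d : ZMod p) * (i : ZMod p) := by
    intro a ha
    rw [hR, resSet, Finset.mem_image] at ha
    obtain ⟨j, hj, rfl⟩ := ha
    obtain ⟨hj1, hj2⟩ := Finset.mem_erase.1 hj
    obtain ⟨w, hw, i, hi, h⟩ := hcov j hj2 hj1
    refine ⟨(w : ZMod p), Finset.mem_image_of_mem _ hw, i, hi, ?_⟩
    have := (ZMod.natCast_eq_natCast_iff _ _ _).2 h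
    push_cast at this
    exact this
  have hRc : (R.card : ℝ) ≤ S.card := by exact_mod_cast card_resSet S
  have hL0 : (0 : ℝ) < L := by exact_mod_cast hL
  have hRL : (R.card : ℝ) * L ≤ (p : ℝ) ^ (3 / 2 - ε) := by
    refine le_trans ?_ hSL
    gcongr
  have hq := hQ p hp4 hp1 L R W' (d : ZMod p) hL hd' (hW'c.trans (hmono _ _ (by linarith)))
    hcov' hRL
  have hfr := hF p hp4 S ((p : ℝ) ^ (-δ₁)) (by positivity) hS hq x
  -- the cardinality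
  have hcard : (R.card : ℝ) ≤ (p : ℝ) ^ (7 / 8 : ℝ) := by
    have h3 : (R.card : ℝ) ≤ W'.card * L := by
      exact_mod_cast card_cluster R W' (d : ZMod p) L hcov'
    have h4 : (R.card : ℝ) * R.card ≤ (p : ℝ) ^ δ * (p : ℝ) ^ (3 / 2 - ε) := by
      calc (R.card : ℝ) * R.card ≤ (W'.card * L) * R.card := by gcongr
        _ = W'.card * (R.card * L) := by ring
        _ ≤ (p : ℝ) ^ δ * (p : ℝ) ^ (3 / 2 - ε) := by gcongr
    have h5 : (p : ℝ) ^ δ * (p : ℝ) ^ (3 / 2 - ε) ≤ (p : ℝ) ^ (7 / 8 : ℝ) * (p : ℝ) ^ (7 / 8 : ℝ) := by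
      rw [← Real.rpow_add hp0, ← Real.rpow_add hp0]
      exact hmono _ _ (by linarith)
    exact (mul_self_le_mul_self_iff (by positivity) (by positivity)).2 (h4.trans h5)
  have hsq : Real.sqrt ((R.card : ℝ) / p) ≤ (p : ℝ) ^ (-(1 / 16 : ℝ)) := by
    rw [Real.sqrt_le_left (by positivity), div_le_iff₀ hp0]
    refine hcard.trans (le_of_eq ?_)
    rw [← Real.rpow_natCast, ← Real.rpow_mul hp0.le]
    nth_rewrite 3 [← Real.rpow_one (p : ℝ)]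
    rw [← Real.rpow_add hp0]
    congr 1
    norm_num
  have hsum : (p : ℝ) ^ (-δ₁) + Real.sqrt ((R.card : ℝ) / p) ≤ (p : ℝ) ^ (-δ) := by
    have h3 : (p : ℝ) ^ (-δ₁) ≤ (p : ℝ) ^ (-(2 * δ)) := hmono _ _ (by linarith)
    have h4 : (p : ℝ) ^ (-(1 / 16 : ℝ)) ≤ (p : ℝ) ^ (-(2 * δ)) := hmono _ _ (by linarith)
    have h5 : 2 * (p : ℝ) ^ (-(2 * δ)) ≤ (p : ℝ) ^ (-δ) := by
      have h6 : (p : ℝ) ^ (-δ) = (p : ℝ) ^ δ * (p : ℝ) ^ (-(2 * δ)) := by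
        rw [← Real.rpow_add hp0]; congr 1; ring
      rw [h6]
      gcongr
    linarith
  have hN : 0 ≤ ∑ j ∈ S, ‖x j‖ ^ 2 := by positivity
  have h7 := hfr.trans (mul_le_mul_of_nonneg_right hsum hN)
  rw [abs_le] at h7
  constructor
  · linarith [h7.1]
  · linarith [h7.2]

end Pool.Agent.Work.AP90.helper90
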